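import Pool.Agent.Q208.SP.Ex

set_option autoImplicit false

/-! Contraction of classes of keys of a search tree. -/

namespace Pool.Agent.Q208.SP

open Pool.Agent.H581R2.Splay Pool.Agent.TH49.Spl Tr

variable (φ : ℕ → ℕ)

/-- the keys `k` with `φ k < c` -/
def cutR (c : ℕ) : Tr → Tr
  | nil => nil
  | node a l r => if φ a < c then node a l (cutR c r) else cutR c l

/-- the keys `k` with `c < φ k` -/
def cutL (c : ℕ) : Tr → Tr
  | nil => nil
  | node a l r => if c < φ a then node a (cutL c l) r else cutL c r

theorem size_cutR (c : ℕ) : ∀ t : Tr, size (cutR φ c t) ≤ size t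
  | nil => le_rfl
  | node a l r => by
    have h1 := size_cutR c l
    have h2 := size_cutR c r
    simp only [cutR]
    split_ifs <;> simp only [size] <;> omega

theorem size_cutL (c : ℕ) : ∀ t : Tr, size (cutL φ c t) ≤ size t
  | nil => le_rfl
  | node a l r => by
    have h1 := size_cutL c l
    have h2 := size_cutL c r
    simp only [cutL]
    split_ifs <;> simp only [size] <;> omega

/-- contraction of the classes of `φ` -/
def con : Tr → Tr
  | nil => nil
  | node a l r => node (φ a) (con (cutR φ (φ a) l)) (con (cutL φ (φ a) r))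
termination_by t => size t
decreasing_by
  · have := size_cutR φ (φ a) l
    simp only [size]
    omega
  · have := size_cutL φ (φ a) r
    simp only [size]
    omega

theorem con_nil : con φ nil = nil := by rw [con]

theorem con_node (a : ℕ) (l r : Tr) :
    con φ (node a l r) = node (φ a) (con φ (cutR φ (φ a) l)) (con φ (cutL φ (φ a) r)) := by
  rw [con]

theorem cutR_sub (c : ℕ) : ∀ t : Tr, (keys (cutR φ c t)).Sublist (keys t)
  | nil => List.Sublist.refl _
  | node a l r => by
    simp only [cutR]
    split_ifs
    · simp only [keys]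
      exact (List.Sublist.refl _).append ((cutR_sub c r).cons_cons a)
    · simp only [keys]
      exact (cutR_sub c l).trans (List.sublist_append_left _ _)

theorem cutL_sub (c : ℕ) : ∀ t : Tr, (keys (cutL φ c t)).Sublist (keys t)
  | nil => List.Sublist.refl _
  | node a l r => by
    simp only [cutL]
    split_ifs
    · simp only [keys]
      exact (cutL_sub c l).append (List.Sublist.refl _)
    · simp only [keys]
      exact ((cutL_sub c r).trans (List.sublist_cons_self _ _)).trans
        (List.sublist_append_right _ _)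

theorem cut_comm {c d : ℕ} (h : c < d) : ∀ t : Tr,
    cutL φ c (cutR φ d t) = cutR φ d (cutL φ c t)
  | nil => rfl
  | node a l r => by
    have h1 := cut_comm h l
    have h2 := cut_comm h r
    by_cases h3 : φ a < d
    · by_cases h4 : c < φ a
      · simp [cutR, cutL, h3, h4]
      · simp [cutR, cutL, h3, h4, h2]
    · have h4 : c < φ a := by omega
      simp [cutR, cutL, h3, h4, h1]

/-- at most one rotation -/
def R01 (T T' : Tr) : Prop := T = T' ∨ ∃ s, Rot T T' s

theorem R01.symm {T T' : Tr} (h : R01 T T') : R01 T' T := by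
  rcases h with h | ⟨s, h⟩
  · exact Or.inl h.symm
  · exact Or.inr (rot_symm h)

theorem R01.inl {T T' : Tr} (h : R01 T T') (a : ℕ) (R : Tr) : R01 (node a T R) (node a T' R) := by
  rcases h with h | ⟨s, h⟩
  · exact Or.inl (by rw [h])
  · exact Or.inr ⟨_, Rot.inl a _ _ R s h⟩

theorem R01.inr {T T' : Tr} (h : R01 T T') (a : ℕ) (L : Tr) : R01 (node a L T) (node a L T') := by
  rcases h with h | ⟨s, h⟩
  · exact Or.inl (by rw [h])
  · exact Or.inr ⟨_, Rot.inr a L _ _ s h⟩

/-- `φ` is monotone on the set `S` -/
def Mon (S : Set ℕ) : Prop := ∀ a ∈ S, ∀ b ∈ S, a < b → φ a ≤ φ b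

theorem cutR_right (S : Set ℕ) (hS : Mon φ S) (c a b : ℕ) (A B C : Tr) (hab : b < a) (ha : a ∈ S)
    (hb : b ∈ S) :
    R01 (cutR φ c (node a (node b A B) C)) (cutR φ c (node b A (node a B C))) := by
  have h := hS b hb a ha hab
  by_cases h1 : φ a < c
  · have h2 : φ b < c := by omega
    simp only [cutR, h1, h2, if_true]
    exact Or.inr ⟨_, Rot.right a b A B _⟩
  · by_cases h2 : φ b < c
    · simp only [cutR, h1, h2, if_true, if_false]
      exact Or.inl rfl
    · simp only [cutR, h1, h2, if_false]
      exact Or.inl rfl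

theorem cutL_right (S : Set ℕ) (hS : Mon φ S) (c a b : ℕ) (A B C : Tr) (hab : b < a) (ha : a ∈ S)
    (hb : b ∈ S) :
    R01 (cutL φ c (node a (node b A B) C)) (cutL φ c (node b A (node a B C))) := by
  have h := hS b hb a ha hab
  by_cases h2 : c < φ b
  · have h1 : c < φ a := by omega
    simp only [cutL, h1, h2, if_true]
    exact Or.inr ⟨_, Rot.right a b _ B C⟩
  · by_cases h1 : c < φ a
    · simp only [cutL, h1, h2, if_true, if_false]
      exact Or.inl rfl
    · simp only [cutL, h1, h2, if_false]
      exact Or.inl rfl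

theorem cut_rot (S : Set ℕ) (hS : Mon φ S) (c : ℕ) {T T' : Tr} {s : ℕ} (h : Rot T T' s) :
    IsBST T → (∀ k ∈ keys T, k ∈ S) →
    R01 (cutR φ c T) (cutR φ c T') ∧ R01 (cutL φ c T) (cutL φ c T') := by
  induction h with
  | right a b A B C =>
    intro hb hk
    have hab : b < a := (bst_lt hb).1 b (by simp [keys])
    have ha := hk a (by simp [keys])
    have hb' := hk b (by simp [keys])
    exact ⟨cutR_right φ S hS c a b A B C hab ha hb', cutL_right φ S hS c a b A B C hab ha hb'⟩
  | left a b A B C =>
    intro hb hk
    have hab : b < a := (bst_lt hb).2.1 a (by simp [keys])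
    have ha := hk a (by simp [keys])
    have hb' := hk b (by simp [keys])
    exact ⟨(cutR_right φ S hS c a b A B C hab ha hb').symm,
      (cutL_right φ S hS c a b A B C hab ha hb').symm⟩
  | inl a L L' R s h ih =>
    intro hb hk
    obtain ⟨-, -, hbl, -⟩ := bst_lt hb
    obtain ⟨i1, i2⟩ := ih hbl (fun k hk' => hk k (by simp [keys, hk']))
    constructor
    · simp only [cutR]
      split_ifs
      · exact Or.inr ⟨_, Rot.inl a L L' _ s h⟩
      · exact i1
    · simp only [cutL]
      split_ifs
      · exact i2.inl a R
      · exact Or.inl rfl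
  | inr a L R R' s h ih =>
    intro hb hk
    obtain ⟨-, -, -, hbr⟩ := bst_lt hb
    obtain ⟨i1, i2⟩ := ih hbr (fun k hk' => hk k (by simp [keys, hk']))
    constructor
    · simp only [cutR]
      split_ifs
      · exact i1.inr a L
      · exact Or.inl rfl
    · simp only [cutL]
      split_ifs
      · exact Or.inr ⟨_, Rot.inr a _ R R' s h⟩
      · exact i2

theorem con_right (S : Set ℕ) (hS : Mon φ S) (a b : ℕ) (A B C : Tr) (hab : b < a) (ha : a ∈ S)
    (hb : b ∈ S) :
    R01 (con φ (node a (node b A B) C)) (con φ (node b A (node a B C))) := by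
  have h := hS b hb a ha hab
  rcases Nat.lt_or_ge (φ b) (φ a) with h1 | h1
  · have h2 : ¬ φ a < φ b := by omega
    have e1 : con φ (node a (node b A B) C) = node (φ a) (node (φ b) (con φ (cutR φ (φ b) A))
        (con φ (cutL φ (φ b) (cutR φ (φ a) B)))) (con φ (cutL φ (φ a) C)) := by
      rw [con_node]
      congr 1
      simp only [cutR, h1, if_true]
      rw [con_node]
    have e2 : con φ (node b A (node a B C)) = node (φ b) (con φ (cutR φ (φ b) A))
        (node (φ a) (con φ (cutR φ (φ a) (cutL φ (φ b) B))) (con φ (cutL φ (φ a) C))) := by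
      rw [con_node]
      congr 1
      simp only [cutL, h1, if_true]
      rw [con_node]
    rw [e1, e2, cut_comm φ h1]
    exact Or.inr ⟨_, Rot.right _ _ _ _ _⟩
  · have h2 : φ a = φ b := by omega
    refine Or.inl ?_
    rw [con_node, con_node, h2]
    simp [cutR, cutL, h2]

theorem con_rot (S : Set ℕ) (hS : Mon φ S) : ∀ (n : ℕ) (T T' : Tr) (s : ℕ), size T ≤ n →
    Rot T T' s → IsBST T → (∀ k ∈ keys T, k ∈ S) → R01 (con φ T) (con φ T') := by
  intro n
  induction n with
  | zero =>
    intro T T' s hn h
    cases h <;> simp [size] at hn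
  | succ n ih =>
    intro T T' s hn h hb hk
    cases h with
    | right a b A B C =>
      exact con_right φ S hS a b A B C ((bst_lt hb).1 b (by simp [keys]))
        (hk a (by simp [keys])) (hk b (by simp [keys]))
    | left a b A B C =>
      exact (con_right φ S hS a b A B C ((bst_lt hb).2.1 a (by simp [keys]))
        (hk a (by simp [keys])) (hk b (by simp [keys]))).symm
    | inl a L L' R s h =>
      obtain ⟨-, -, hbl, -⟩ := bst_lt hb
      have hkl : ∀ k ∈ keys L, k ∈ S := fun k hk' => hk k (by simp [keys, hk'])
      have h1 := (cut_rot φ S hS (φ a) h hbl hkl).1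
      rw [con_node, con_node]
      refine R01.inl ?_ _ _
      rcases h1 with h1 | ⟨s', h1⟩
      · exact Or.inl (by rw [h1])
      · have hsz := size_cutR φ (φ a) L
        simp only [size] at hn
        exact ih _ _ s' (by omega) h1 (List.Pairwise.sublist (cutR_sub φ (φ a) L) hbl)
          (fun k hk' => hkl k ((cutR_sub φ (φ a) L).subset hk'))
    | inr a L R R' s h =>
      obtain ⟨-, -, -, hbr⟩ := bst_lt hb
      have hkr : ∀ k ∈ keys R, k ∈ S := fun k hk' => hk k (by simp [keys, hk'])
      have h1 := (cut_rot φ S hS (φ a) h hbr hkr).2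
      rw [con_node, con_node]
      refine R01.inr ?_ _ _
      rcases h1 with h1 | ⟨s', h1⟩
      · exact Or.inl (by rw [h1])
      · have hsz := size_cutL φ (φ a) R
        simp only [size] at hn
        exact ih _ _ s' (by omega) h1 (List.Pairwise.sublist (cutL_sub φ (φ a) R) hbr)
          (fun k hk' => hkr k ((cutL_sub φ (φ a) R).subset hk'))

/-- `e` rotations become at most `e` rotations -/
theorem con_rotN (S : Set ℕ) (hS : Mon φ S) {e : ℕ} {T T' : Tr} (h : RotN e T T') :
    IsBST T → (∀ k ∈ keys T, k ∈ S) → ∃ e' ≤ e, RotN e' (con φ T) (con φ T') := by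
  induction h with
  | refl T => intro _ _; exact ⟨0, le_rfl, RotN.refl _⟩
  | step e s T T1 T2 h1 _ ih =>
    intro hb hk
    have hk1 := rot_keys h1
    obtain ⟨e', he', h2⟩ := ih (bst_eq hk1 hb) (fun k hk' => hk k (by rw [← hk1]; exact hk'))
    rcases con_rot φ S hS (size T) T T1 s le_rfl h1 hb hk with h3 | ⟨s', h3⟩
    · exact ⟨e', by omega, by rw [h3]; exact h2⟩
    · exact ⟨e' + 1, by omega, RotN.step _ s' _ _ _ h3 h2⟩

theorem dep_cutR (S : Set ℕ) (hS : Mon φ S) {c x : ℕ} (hx : x ∈ S) (hc : φ x < c) : ∀ t : Tr,
    (∀ k ∈ keys t, k ∈ S) → dep x (cutR φ c t) ≤ dep x t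
  | nil, _ => le_rfl
  | node a l r, hk => by
    have h1 := dep_cutR S hS hx hc l (fun k hk' => hk k (by simp [keys, hk']))
    have h2 := dep_cutR S hS hx hc r (fun k hk' => hk k (by simp [keys, hk']))
    have ha := hk a (by simp [keys])
    simp only [cutR]
    split_ifs with h3
    · simp only [dep]
      split_ifs <;> omega
    · have h4 : x < a := by
        by_contra h5
        rcases Nat.lt_or_ge a x with h6 | h6
        · have := hS a ha x hx h6
          omega
        · have : x = a := by omega
          subst this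
          exact h3 hc
      simp only [dep, h4, h4.ne, if_false, if_true]
      omega

theorem dep_cutL (S : Set ℕ) (hS : Mon φ S) {c x : ℕ} (hx : x ∈ S) (hc : c < φ x) : ∀ t : Tr,
    (∀ k ∈ keys t, k ∈ S) → dep x (cutL φ c t) ≤ dep x t
  | nil, _ => le_rfl
  | node a l r, hk => by
    have h1 := dep_cutL S hS hx hc l (fun k hk' => hk k (by simp [keys, hk']))
    have h2 := dep_cutL S hS hx hc r (fun k hk' => hk k (by simp [keys, hk']))
    have ha := hk a (by simp [keys])
    simp only [cutL]
    split_ifs with h3
    · simp only [dep]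
      split_ifs <;> omega
    · have h4 : a < x := by
        by_contra h5
        rcases Nat.lt_or_ge x a with h6 | h6
        · have := hS x hx a ha h6
          omega
        · have : x = a := by omega
          subst this
          exact h3 hc
      simp only [dep, h4.ne', h4.not_gt, if_false]
      omega

theorem dep_con (S : Set ℕ) (hS : Mon φ S) {x : ℕ} (hx : x ∈ S) (hφ : φ x = x)
    (hc : ∀ k ∈ S, φ k = x → k = x) : ∀ (n : ℕ) (t : Tr), size t ≤ n →
    (∀ k ∈ keys t, k ∈ S) → dep x (con φ t) ≤ dep x t := by
  intro n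
  induction n with
  | zero =>
    intro t hn
    cases t with
    | nil => intro _; rw [con_nil]
    | node a l r => simp [size] at hn
  | succ n ih =>
    intro t hn hk
    cases t with
    | nil => rw [con_nil]
    | node a l r =>
      have ha := hk a (by simp [keys])
      have hkl : ∀ k ∈ keys l, k ∈ S := fun k hk' => hk k (by simp [keys, hk'])
      have hkr : ∀ k ∈ keys r, k ∈ S := fun k hk' => hk k (by simp [keys, hk'])
      simp only [size] at hn
      rw [con_node]
      by_cases h1 : x = a
      · subst h1
        rw [hφ]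
        simp [dep]
      · have h1' : x ≠ φ a := fun h => h1 (hc a ha h.symm).symm
        rcases Nat.lt_or_ge x a with h2 | h2
        · have h3 : x < φ a := by
            have := hS x hx a ha h2
            rw [hφ] at this
            omega
          have h4 := size_cutR φ (φ a) l
          have h5 := ih (cutR φ (φ a) l) (by omega)
            (fun k hk' => hkl k ((cutR_sub φ (φ a) l).subset hk'))
          have h6 := dep_cutR φ S hS hx (by rw [hφ]; exact h3) l hkl
          simp only [dep, h1, h1', h2, h3, if_true, if_false]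
          omega
        · have h2' : a < x := by omega
          have h3 : φ a < x := by
            have := hS a ha x hx h2'
            rw [hφ] at this
            omega
          have h4 := size_cutL φ (φ a) r
          have h5 := ih (cutL φ (φ a) r) (by omega)
            (fun k hk' => hkr k ((cutL_sub φ (φ a) r).subset hk'))
          have h6 := dep_cutL φ S hS hx (by rw [hφ]; exact h3) r hkr
          simp only [dep, h1, h1', h2'.not_gt, h3.not_gt, if_false]
          omega

/-- executions pass to the contraction -/
theorem con_exec (S : Set ℕ) (hS : Mon φ S) {T : Tr} {X : List ℕ} {c : ℕ} (h : Exec T X c) :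
    IsBST T → (∀ k ∈ keys T, k ∈ S) →
    (∀ x ∈ X, x ∈ S ∧ φ x = x ∧ ∀ k ∈ S, φ k = x → k = x) →
    ∃ c' ≤ c, Exec (con φ T) X c' := by
  induction h with
  | nil T => intro _ _ _; exact ⟨0, le_rfl, Exec.nil _⟩
  | cons T T' x Y e c h1 _ ih =>
    intro hb hk hX
    have hk1 := rotN_keys h1
    obtain ⟨c', hc', h2⟩ := ih (bst_eq hk1 hb) (fun k hk' => hk k (by rw [← hk1]; exact hk'))
      (fun y hy => hX y (by simp [hy]))
    obtain ⟨e', he', h3⟩ := con_rotN φ S hS h1 hb hk
    obtain ⟨x1, x2, x3⟩ := hX x (by simp)
    have h4 := dep_con φ S hS x1 x2 x3 (size T) T le_rfl hk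
    exact ⟨_, by omega, Exec.cons _ _ x Y e' c' h3 h2⟩

end Pool.Agent.Q208.SP
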