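import Pool.Agent.Q208.SP.Word

set_option autoImplicit false

/-! Executions with their final tree; splaying is one. -/

namespace Pool.Agent.Q208.SP

open Pool.Agent.H581R2.Splay Pool.Agent.TH49.Spl Tr

theorem rot_keys {s : ℕ} {T T' : Tr} (h : Rot T T' s) : keys T' = keys T := by
  induction h with
  | right a b A B C => simp [keys]
  | left a b A B C => simp [keys]
  | inl a L L' R s _ ih => simp [keys, ih]
  | inr a L R R' s _ ih => simp [keys, ih]

theorem rotN_keys {e : ℕ} {T T' : Tr} (h : RotN e T T') : keys T' = keys T := by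
  induction h with
  | refl T => rfl
  | step e s T T' T'' h1 _ ih => rw [ih, rot_keys h1]

theorem rotN_trans {e f : ℕ} {T T' T'' : Tr} (h : RotN e T T') (h' : RotN f T' T'') :
    RotN (e + f) T T'' := by
  induction h with
  | refl T => simpa using h'
  | step e s T T1 T2 hr _ ih =>
    have := RotN.step _ s _ _ _ hr (ih h')
    rw [show e + 1 + f = e + f + 1 by omega]
    exact this

theorem rot_symm {s : ℕ} {T T' : Tr} (h : Rot T T' s) : ∃ s', Rot T' T s' := by
  induction h with
  | right a b A B C => exact ⟨_, Rot.left a b A B C⟩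
  | left a b A B C => exact ⟨_, Rot.right a b A B C⟩
  | inl a L L' R s _ ih =>
    obtain ⟨s', h⟩ := ih
    exact ⟨s', Rot.inl a _ _ R s' h⟩
  | inr a L R R' s _ ih =>
    obtain ⟨s', h⟩ := ih
    exact ⟨s', Rot.inr a L _ _ s' h⟩

theorem rotN_symm {e : ℕ} {T T' : Tr} (h : RotN e T T') : RotN e T' T := by
  induction h with
  | refl T => exact RotN.refl _
  | step e s T T1 T2 hr _ ih =>
    obtain ⟨s', h'⟩ := rot_symm hr
    exact rotN_trans ih (RotN.step 0 s' _ _ _ h' (RotN.refl _))

theorem mv_rot {t t' : Tr} (h : Mv t t') : ∃ s, Rot t t' s := by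
  cases h with
  | r0 a b A B C => exact ⟨_, Rot.right b a A B C⟩
  | i0 a b A B C => exact ⟨_, Rot.left b a A B C⟩
  | r1 a b c A B C D => exact ⟨_, Rot.inr a A _ _ _ (Rot.right c b B C D)⟩

theorem mvn_rotN {k : ℕ} {t t' : Tr} (h : MvN k t t') : RotN k t t' := by
  induction h with
  | refl t => exact RotN.refl _
  | step k t t' t'' h1 _ ih =>
    obtain ⟨s, hs⟩ := mv_rot h1
    exact RotN.step _ s _ _ _ hs ih

/-- any two trees with the same keys are at most `6 n` rotations apart -/
theorem rot_dist {t t' : Tr} (hk : keys t' = keys t) : ∃ e ≤ 6 * size t, RotN e t t' := by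
  obtain ⟨k, hk1, h1⟩ := canon t
  obtain ⟨k', hk1', h1'⟩ := canon t'
  have hs := size_eq' hk
  rw [hk] at h1'
  exact ⟨k + k', by rw [hs] at hk1'; omega, rotN_trans (mvn_rotN h1) (rotN_symm (mvn_rotN h1'))⟩

/-! ### splaying by rotations -/

theorem rot_plug {s : ℕ} : ∀ (fs : List Fr) (t t' : Tr), Rot t t' s →
    Rot (plug fs t) (plug fs t') s := by
  intro fs
  induction fs with
  | nil => intro t t' h; exact h
  | cons f fs ih =>
    intro t t' h
    refine ih _ _ ?_
    cases f with
    | inL a r => exact Rot.inl a t t' r s h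
    | inR a l => exact Rot.inr a l t t' s h

theorem rotN_plug {e : ℕ} (fs : List Fr) {t t' : Tr} (h : RotN e t t') :
    RotN e (plug fs t) (plug fs t') := by
  induction h with
  | refl T => exact RotN.refl _
  | step e s T T1 T2 hr _ ih => exact RotN.step e s _ _ _ (rot_plug fs _ _ hr) ih

theorem climb_rotN (x : ℕ) : ∀ (fs : List Fr) (l r : Tr),
    RotN fs.length (plug fs (node x l r)) (climb x fs l r) := by
  intro fs
  induction hn : fs.length using Nat.strong_induction_on generalizing fs with
  | _ n ih =>
    intro l r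
    match fs, hn with
    | [], hn =>
      simp only [List.length_nil] at hn
      subst hn
      exact RotN.refl _
    | [Fr.inL y c], hn =>
      simp only [List.length_cons, List.length_nil] at hn
      subst hn
      simp only [plug, plug1, climb]
      exact RotN.step 0 _ _ _ _ (Rot.right y x l r c) (RotN.refl _)
    | [Fr.inR y c], hn =>
      simp only [List.length_cons, List.length_nil] at hn
      subst hn
      simp only [plug, plug1, climb]
      exact RotN.step 0 _ _ _ _ (Rot.left x y c l r) (RotN.refl _)
    | Fr.inL y c :: Fr.inL z d :: fs, hn =>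
      simp only [List.length_cons] at hn
      have h1 := ih fs.length (by omega) fs rfl l (node y r (node z c d))
      have h2 : RotN 2 (node z (node y (node x l r) c) d) (node x l (node y r (node z c d))) :=
        RotN.step 1 _ _ _ _ (Rot.right z y (node x l r) c d)
          (RotN.step 0 _ _ _ _ (Rot.right y x l r (node z c d)) (RotN.refl _))
      have h3 := rotN_trans (rotN_plug fs h2) h1
      simp only [plug, plug1, climb]
      rw [← hn]
      rw [show fs.length + 1 + 1 = 2 + fs.length by omega]
      exact h3
    | Fr.inR y c :: Fr.inR z d :: fs, hn =>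
      simp only [List.length_cons] at hn
      have h1 := ih fs.length (by omega) fs rfl (node y (node z d c) l) r
      have h2 : RotN 2 (node z d (node y c (node x l r))) (node x (node y (node z d c) l) r) :=
        RotN.step 1 _ _ _ _ (Rot.left y z d c (node x l r))
          (RotN.step 0 _ _ _ _ (Rot.left x y (node z d c) l r) (RotN.refl _))
      have h3 := rotN_trans (rotN_plug fs h2) h1
      simp only [plug, plug1, climb]
      rw [← hn]
      rw [show fs.length + 1 + 1 = 2 + fs.length by omega]
      exact h3
    | Fr.inL y c :: Fr.inR z d :: fs, hn =>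
      simp only [List.length_cons] at hn
      have h1 := ih fs.length (by omega) fs rfl (node z d l) (node y r c)
      have h2 : RotN 2 (node z d (node y (node x l r) c)) (node x (node z d l) (node y r c)) :=
        RotN.step 1 _ _ _ _ (Rot.inr z d _ _ _ (Rot.right y x l r c))
          (RotN.step 0 _ _ _ _ (Rot.left x z d l (node y r c)) (RotN.refl _))
      have h3 := rotN_trans (rotN_plug fs h2) h1
      simp only [plug, plug1, climb]
      rw [← hn]
      rw [show fs.length + 1 + 1 = 2 + fs.length by omega]
      exact h3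
    | Fr.inR y c :: Fr.inL z d :: fs, hn =>
      simp only [List.length_cons] at hn
      have h1 := ih fs.length (by omega) fs rfl (node y c l) (node z r d)
      have h2 : RotN 2 (node z (node y c (node x l r)) d) (node x (node y c l) (node z r d)) :=
        RotN.step 1 _ _ _ _ (Rot.inl z _ _ d _ (Rot.left x y c l r))
          (RotN.step 0 _ _ _ _ (Rot.right z x (node y c l) r d) (RotN.refl _))
      have h3 := rotN_trans (rotN_plug fs h2) h1
      simp only [plug, plug1, climb]
      rw [← hn]
      rw [show fs.length + 1 + 1 = 2 + fs.length by omega]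
      exact h3

theorem splay_rotN {x : ℕ} {t : Tr} (hb : IsBST t) (hx : x ∈ keys t) :
    RotN (dep x t) t (splay x t) := by
  obtain ⟨h1, h2⟩ := locate_spec x t [] hb hx
  have h1' : plug (locate x t []).1 (node x (locate x t []).2.1 (locate x t []).2.2) = t := h1
  have h2' : (locate x t []).1.length = dep x t := by simpa using h2
  have h3 := climb_rotN x (locate x t []).1 (locate x t []).2.1 (locate x t []).2.2
  rw [h1', h2'] at h3
  exact h3

/-! ### executions -/

/-- executions with their final tree -/
inductive ExT : Tr → List ℕ → ℕ → Tr → Prop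
  | nil (T : Tr) : ExT T [] 0 T
  | cons (T T' T'' : Tr) (x : ℕ) (Y : List ℕ) (e c : ℕ) :
      RotN e T T' → ExT T' Y c T'' → ExT T (x :: Y) (1 + e + dep x T + c) T''

theorem ExT.exec {T T' : Tr} {Y : List ℕ} {c : ℕ} (h : ExT T Y c T') : Exec T Y c := by
  induction h with
  | nil T => exact Exec.nil _
  | cons T T' T'' x Y e c h1 _ ih => exact Exec.cons T T' x Y e c h1 ih

theorem exT_of {T : Tr} {Y : List ℕ} {c : ℕ} (h : Exec T Y c) :
    ∃ T', ExT T Y c T' ∧ keys T' = keys T := by
  induction h with
  | nil T => exact ⟨T, ExT.nil _, rfl⟩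
  | cons T T' x Y e c h1 _ ih =>
    obtain ⟨T2, h2, h3⟩ := ih
    exact ⟨T2, ExT.cons T T' T2 x Y e c h1 h2, by rw [h3, rotN_keys h1]⟩

theorem ExT.append {T T' T'' : Tr} {X Y : List ℕ} {c d : ℕ} (h : ExT T X c T')
    (h' : ExT T' Y d T'') : ExT T (X ++ Y) (c + d) T'' := by
  induction h with
  | nil T => simpa using h'
  | cons T T1 T2 x Z e c h1 _ ih =>
    have := ExT.cons T T1 _ x (Z ++ Y) e (c + d) h1 (ih h')
    rw [show 1 + e + dep x T + c + d = 1 + e + dep x T + (c + d) by ring]
    exact this

/-- further rotations after the last request -/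
theorem ExT.post {T T' T'' : Tr} {X : List ℕ} {c f : ℕ} (h : ExT T X c T') :
    X ≠ [] → RotN f T' T'' → ExT T X (c + f) T'' := by
  induction h with
  | nil T => intro h; exact absurd rfl h
  | cons T T1 T2 x Z e c h1 h2 ih =>
    intro _ hf
    cases Z with
    | nil =>
      cases h2
      have := ExT.cons T T'' T'' x [] (e + f) 0 (rotN_trans h1 hf) (ExT.nil _)
      rw [show 1 + e + dep x T + 0 + f = 1 + (e + f) + dep x T + 0 by ring]
      exact this
    | cons z Z =>
      have := ExT.cons T T1 _ x (z :: Z) e (c + f) h1 (ih (by simp) hf)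
      rw [show 1 + e + dep x T + c + f = 1 + e + dep x T + (c + f) by ring]
      exact this

/-- splaying is an execution -/
theorem exT_splay (X : List ℕ) : ∀ T : Tr, IsBST T → (∀ x ∈ X, x ∈ keys T) →
    ∃ c ≤ 2 * costSplay T X, ExT T X c (runS T X) := by
  induction X with
  | nil => intro T _ _; exact ⟨0, by simp, ExT.nil _⟩
  | cons x X ih =>
    intro T hb hX
    have h1 := splay_rotN hb (hX x (by simp))
    have hk := rotN_keys h1
    obtain ⟨c, hc, h2⟩ := ih (splay x T) (bst_eq hk hb) (fun y hy => by
      rw [hk]; exact hX y (by simp [hy]))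
    refine ⟨_, ?_, ExT.cons T _ _ x X _ c h1 h2⟩
    simp only [costSplay]
    omega

/-- `k` repetitions -/
def rep (X : List ℕ) : ℕ → List ℕ
  | 0 => []
  | k + 1 => X ++ rep X k

theorem exT_rep {T : Tr} {X : List ℕ} {c : ℕ} (h : ExT T X c T) (k : ℕ) :
    ExT T (rep X k) (k * c) T := by
  induction k with
  | zero => simpa [rep] using ExT.nil T
  | succ k ih =>
    have := h.append ih
    rw [show (k + 1) * c = c + k * c by ring]
    exact this

theorem cost_rep {T : Tr} {X : List ℕ} (h : runS T X = T) (k : ℕ) :
    costSplay T (rep X k) = k * costSplay T X := by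
  induction k with
  | zero => simp [rep, costSplay]
  | succ k ih =>
    simp only [rep, costSplay_append, h, ih]
    ring

/-- **Loops.** If `4 ≤ n` then for every sequence `X` there is a sequence `Y` such that the splay tree
is the same after `Y` as before, `Y` costs splaying at least as much as `X`, and `Y` has a closed
execution of cost at most `c + 198 n`, for every cost `c` of an execution for `X`. -/
theorem loops {T : Tr} (hb : IsBST T) (h4 : 4 ≤ size T) {X : List ℕ} (hX : ∀ x ∈ X, x ∈ keys T)
    (hne : X ≠ []) {c : ℕ} (hc : Exec T X c) :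
    ∃ Y : List ℕ, (∀ x ∈ Y, x ∈ keys T) ∧ runS T Y = T ∧ costSplay T X ≤ costSplay T Y ∧
      ∃ d ≤ c + 198 * size T, ExT T Y d T := by
  have hk := runS_keys X T hb hX
  have hb1 := bst_eq hk hb
  have hs := size_eq' hk
  obtain ⟨W, w1, w2, w3⟩ := connect hb1 hk.symm (by rw [hs]; exact h4)
  obtain ⟨T1, h1, h1k⟩ := exT_of hc
  obtain ⟨e, he, hr⟩ := rot_dist (t := T1) (t' := runS T X) (by rw [hk, h1k])
  have h2 := h1.post hne hr
  obtain ⟨d, hd, h3⟩ := exT_splay W (runS T X) hb1 w1
  rw [w2] at h3
  have h4' := h2.append h3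
  rw [hs] at w3
  rw [size_eq' h1k] at he
  refine ⟨X ++ W, ?_, ?_, ?_, _, ?_, h4'⟩
  · intro x hx
    rw [List.mem_append] at hx
    rcases hx with hx | hx
    · exact hX x hx
    · have := w1 x hx
      rw [hk] at this
      exact this
  · rw [runS_append, w2]
  · rw [costSplay_append]; omega
  · omega

end Pool.Agent.Q208.SP
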