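import Pool.Agent.Q208.SP.Tru

set_option autoImplicit false

/-! Loops suffice; additive terms do not matter. -/

namespace Pool.Agent.Q208.SP

open Pool.Agent.H581R2.Splay Pool.Agent.TH49.Spl Pool.Agent.Y578.Spl Tr

theorem exec_len {T : Tr} {X : List ℕ} {d : ℕ} (h : Exec T X d) : X.length ≤ d := by
  induction h with
  | nil T => simp
  | cons T T' x Y e c _ _ ih => simp only [List.length_cons]; omega

theorem dep_size (x : ℕ) : ∀ t : Tr, dep x t ≤ size t
  | nil => le_rfl
  | node a l r => by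
    have h1 := dep_size x l
    have h2 := dep_size x r
    simp only [dep, size]
    split_ifs <;> omega

theorem cost_small (X : List ℕ) : ∀ T : Tr, IsBST T → (∀ x ∈ X, x ∈ keys T) →
    costSplay T X ≤ X.length * (1 + size T) := by
  induction X with
  | nil => intro T _ _; simp [costSplay]
  | cons x X ih =>
    intro T hb hX
    have hk := splay_keys hb (hX x (by simp))
    have h1 := ih (splay x T) (bst_eq hk hb) (fun y hy => by rw [hk]; exact hX y (by simp [hy]))
    rw [size_eq' hk] at h1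
    have h2 := dep_size x T
    simp only [costSplay, List.length_cons]
    nlinarith

theorem rep_mem {X : List ℕ} {y : ℕ} : ∀ k : ℕ, y ∈ rep X k → y ∈ X
  | 0, h => by simp [rep] at h
  | k + 1, h => by
    simp only [rep, List.mem_append] at h
    rcases h with h | h
    · exact h
    · exact rep_mem k h

/-- loops suffice -/
theorem of_loops {c : ℝ} (hc : 0 ≤ c)
    (h : ∀ (T : Tr) (Y : List ℕ), IsBST T → (∀ y ∈ Y, y ∈ keys T) → runS T Y = T →
      ∀ d : ℕ, ExT T Y d T → (costSplay T Y : ℝ) ≤ c * d)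
    {T : Tr} (hb : IsBST T) {X : List ℕ} (hX : ∀ x ∈ X, x ∈ keys T) {d : ℕ} (hd : Exec T X d) :
    (costSplay T X : ℝ) ≤ (991 * c + 4) * d := by
  obtain ⟨T', hb', hX', hs, hsz, d', hd', hE⟩ := small hb hX hd
  rw [← hs]
  have hd0 : (0 : ℝ) ≤ d := by positivity
  rcases X with _ | ⟨x, X⟩
  · simp only [costSplay, Nat.cast_zero]
    positivity
  have hd1 : 1 ≤ d := by
    have := exec_len hd
    simp only [List.length_cons] at this
    omega
  rcases Nat.lt_or_ge (size T') 4 with h4 | h4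
  · have h1 := cost_small (x :: X) T' hb' hX'
    have h2 := exec_len hd
    have h3 : costSplay T' (x :: X) ≤ 4 * d := by nlinarith
    have h3' : (costSplay T' (x :: X) : ℝ) ≤ 4 * d := by exact_mod_cast h3
    nlinarith [mul_nonneg hc hd0]
  · obtain ⟨Y, y1, y2, y3, e, he, y4⟩ := loops hb' h4 hX' (by simp) hE
    have h1 := h T' Y hb' y1 y2 e y4
    have h2 : (costSplay T' (x :: X) : ℝ) ≤ costSplay T' Y := by exact_mod_cast y3
    have h3 : e ≤ 991 * d := by omega
    have h3' : (e : ℝ) ≤ 991 * d := by exact_mod_cast h3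
    nlinarith [mul_le_mul_of_nonneg_left h3' hc]

/-- additive terms do not matter for loops -/
theorem loops_of_add {c : ℝ} {g : ℕ → ℝ}
    (h : ∀ (T : Tr) (X : List ℕ), IsBST T → (∀ x ∈ X, x ∈ keys T) → ∀ d : ℕ, Exec T X d →
      (costSplay T X : ℝ) ≤ c * d + g (keys T).length)
    (T : Tr) (Y : List ℕ) (hb : IsBST T) (hY : ∀ y ∈ Y, y ∈ keys T) (hr : runS T Y = T)
    (d : ℕ) (hd : ExT T Y d T) : (costSplay T Y : ℝ) ≤ c * d := by
  by_contra hcon
  push Not at hcon
  obtain ⟨k, hk⟩ := exists_nat_gt (g (keys T).length / ((costSplay T Y : ℝ) - c * d))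
  have hpos : 0 < (costSplay T Y : ℝ) - c * d := by linarith
  rw [div_lt_iff₀ hpos] at hk
  have h1 := h T (rep Y k) hb (fun x hx => hY x (rep_mem k hx)) (k * d) (exT_rep hd k).exec
  rw [cost_rep hr k] at h1
  push_cast at h1
  nlinarith

/-- the weakest asymptotic form -/
theorem loops_of_asymp {c : ℝ} {g : Tr → ℝ}
    (h : ∀ (T : Tr) (Y : List ℕ), IsBST T → (∀ y ∈ Y, y ∈ keys T) → runS T Y = T → ∀ M : ℕ,
      ∃ N : ℕ, M ≤ N ∧ ∀ d : ℕ, Exec T (rep Y N) d →
        (N : ℝ) * (costSplay T Y : ℝ) ≤ c * d + g T)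
    (T : Tr) (Y : List ℕ) (hb : IsBST T) (hY : ∀ y ∈ Y, y ∈ keys T) (hr : runS T Y = T)
    (d : ℕ) (hd : ExT T Y d T) : (costSplay T Y : ℝ) ≤ c * d := by
  by_contra hcon
  push Not at hcon
  obtain ⟨k, hk⟩ := exists_nat_gt (g T / ((costSplay T Y : ℝ) - c * d))
  have hpos : 0 < (costSplay T Y : ℝ) - c * d := by linarith
  obtain ⟨N, hN, h1⟩ := h T Y hb hY hr k
  have h2 := h1 (N * d) (exT_rep hd N).exec
  have h3 : g T / ((costSplay T Y : ℝ) - c * d) < N := lt_of_lt_of_le hk (by exact_mod_cast hN)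
  rw [div_lt_iff₀ hpos] at h3
  push_cast at h2
  nlinarith

end Pool.Agent.Q208.SP
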