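import Pool.Agent.TH49.Spl.Win

set_option autoImplicit false

/-! Rotations at the root and at the right child of the root connect all search trees, at linear
cost. -/

namespace Pool.Agent.Q208.SP

open Pool.Agent.H581R2.Splay Pool.Agent.TH49.Spl Tr

/-- one rotation at the root (in both directions) or at the right child of the root (right rotation
only) -/
inductive Mv : Tr → Tr → Prop
  | r0 (a b : ℕ) (A B C : Tr) : Mv (node b (node a A B) C) (node a A (node b B C))
  | i0 (a b : ℕ) (A B C : Tr) : Mv (node a A (node b B C)) (node b (node a A B) C)
  | r1 (a b c : ℕ) (A B C D : Tr) :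
      Mv (node a A (node c (node b B C) D)) (node a A (node b B (node c C D)))

inductive MvN : ℕ → Tr → Tr → Prop
  | refl (t : Tr) : MvN 0 t t
  | step (k : ℕ) (t t' t'' : Tr) : Mv t t' → MvN k t' t'' → MvN (k + 1) t t''

theorem Mv.keys_eq {t t' : Tr} (h : Mv t t') : keys t' = keys t := by
  cases h <;> simp [keys]

theorem MvN.keys_eq {k : ℕ} {t t' : Tr} (h : MvN k t t') : keys t' = keys t := by
  induction h with
  | refl t => rfl
  | step k t t' t'' h1 _ ih => rw [ih, h1.keys_eq]

theorem MvN.trans {k l : ℕ} {t t' t'' : Tr} (h : MvN k t t') (h' : MvN l t' t'') :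
    MvN (k + l) t t'' := by
  induction h with
  | refl t => simpa using h'
  | step k t t1 t2 h1 _ ih =>
    have := MvN.step _ _ _ _ h1 (ih h')
    rw [show k + 1 + l = k + l + 1 by omega]
    exact this

/-- the left path: the further keys are put on top, one after the other -/
def lp : Tr → List ℕ → Tr
  | A, [] => A
  | A, k :: ks => lp (node k A nil) ks

/-- the number of moves for the right subtree -/
def nf : Tr → ℕ
  | nil => 0
  | node _ l r => 2 * size l + 1 + nf r

theorem nf_le : ∀ t : Tr, nf t ≤ 2 * size t
  | nil => by simp [nf]
  | node a l r => by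
    have := nf_le r
    simp only [nf, size]
    omega

theorem flat : ∀ (n : ℕ) (r : ℕ) (A R : Tr), nf R = n →
    MvN n (node r A R) (lp (node r A nil) (keys R)) := by
  intro n
  induction n with
  | zero =>
    intro r A R h
    cases R with
    | nil => exact MvN.refl _
    | node c L D => simp [nf] at h
  | succ n ih =>
    intro r A R h
    cases R with
    | nil => simp [nf] at h
    | node c L D =>
      cases L with
      | nil =>
        simp only [nf, size] at h
        have h1 := ih c (node r A nil) D (by omega)
        refine MvN.step _ _ _ _ (Mv.i0 r c A nil D) ?_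
        simpa [keys, lp] using h1
      | node b B C =>
        simp only [nf, size] at h
        have h1 := ih r A (node b B (node c C D)) (by simp only [nf]; omega)
        refine MvN.step _ _ _ _ (Mv.r1 r b c A B C D) ?_
        have e : keys (node b B (node c C D)) = keys (node c (node b B C) D) := by simp [keys]
        rw [← e]
        exact h1

theorem init : ∀ (L : Tr) (r : ℕ) (R : Tr), ∃ k ≤ size L, ∃ (a : ℕ) (R' : Tr),
    MvN k (node r L R) (node a nil R') := by
  intro L
  induction L with
  | nil => intro r R; exact ⟨0, le_rfl, r, R, MvN.refl _⟩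
  | node a A B ihA _ =>
    intro r R
    obtain ⟨k, hk, a', R', h⟩ := ihA a (node r B R)
    exact ⟨k + 1, by simp only [size]; omega, a', R', MvN.step _ _ _ _ (Mv.r0 a r A B R) h⟩

theorem size_keys : ∀ t : Tr, (keys t).length = size t
  | nil => rfl
  | node a l r => by simp [keys, size, size_keys l, size_keys r]; omega

/-- every tree leads to the left path -/
theorem canon (t : Tr) : ∃ k ≤ 3 * size t, MvN k t (lp nil (keys t)) := by
  cases t with
  | nil => exact ⟨0, le_rfl, MvN.refl _⟩
  | node r L R =>
    obtain ⟨k, hk, a, R', h⟩ := init L r R
    have h1 := flat _ a nil R' rfl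
    have hk2 := h.keys_eq
    have hs : size R' + 1 = size (node r L R) := by
      have := congrArg List.length hk2
      rw [size_keys, size_keys] at this
      simpa [size] using this
    have hn := nf_le R'
    refine ⟨k + nf R', by simp only [size] at hs ⊢; omega, h.trans ?_⟩
    rw [← hk2]
    simpa [keys, lp] using h1

end Pool.Agent.Q208.SP
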