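import Pool.Agent.Q208.SP.Ctr
import Pool.Agent.Y578.Spl.Prune

set_option autoImplicit false

/-! The part of a search tree which is touched by splaying; reduction to small trees. -/

namespace Pool.Agent.Q208.SP

open Pool.Agent.H581R2.Splay Pool.Agent.TH49.Spl Pool.Agent.Y578.Spl Tr

/-- every maximal subtree with its root outside `Q` is replaced by its root -/
def trunc (Q : Finset ℕ) : Tr → Tr
  | nil => nil
  | node a l r => if a ∈ Q then node a (trunc Q l) (trunc Q r) else node a nil nil

/-- the root of the maximal subtree with root outside `Q` which contains `k`, or `k` -/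
def rp (Q : Finset ℕ) : Tr → ℕ → ℕ
  | nil, k => k
  | node a l r, k => if a ∈ Q then (if k = a then a else if k < a then rp Q l k else rp Q r k) else a

theorem rp_mem (Q : Finset ℕ) : ∀ t : Tr, IsBST t → ∀ k ∈ keys t, rp Q t k ∈ keys t
  | nil, _, k, hk => by simp [keys] at hk
  | node a l r, hb, k, hk => by
    obtain ⟨b1, b2, b3, b4⟩ := bst_lt hb
    simp only [rp]
    split_ifs with h1 h2 h3
    · simp [keys]
    · have hkl : k ∈ keys l := by
        simp only [keys, List.mem_append, List.mem_cons] at hk
        rcases hk with h | h | h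
        · exact h
        · exact absurd h h2
        · have := b2 k h; omega
      have := rp_mem Q l b3 k hkl
      simp [keys, this]
    · have hkr : k ∈ keys r := by
        simp only [keys, List.mem_append, List.mem_cons] at hk
        rcases hk with h | h | h
        · have := b1 k h; omega
        · exact absurd h h2
        · exact h
      have := rp_mem Q r b4 k hkr
      simp [keys, this]
    · simp [keys]

/-- where `rp` lies -/
theorem rp_side (Q : Finset ℕ) {a : ℕ} {l r : Tr} (hb : IsBST (node a l r)) (ha : a ∈ Q) :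
    (∀ k ∈ keys l, rp Q (node a l r) k = rp Q l k ∧ rp Q l k < a) ∧
    rp Q (node a l r) a = a ∧
    (∀ k ∈ keys r, rp Q (node a l r) k = rp Q r k ∧ a < rp Q r k) := by
  obtain ⟨b1, b2, b3, b4⟩ := bst_lt hb
  refine ⟨fun k hk => ?_, ?_, fun k hk => ?_⟩
  · have h := b1 k hk
    refine ⟨?_, b1 _ (rp_mem Q l b3 k hk)⟩
    simp [rp, ha, h, h.ne]
  · simp [rp, ha]
  · have h := b2 k hk
    refine ⟨?_, b2 _ (rp_mem Q r b4 k hk)⟩
    simp [rp, ha, h.ne', h.not_gt]

theorem rp_mon (Q : Finset ℕ) : ∀ t : Tr, IsBST t → Mon (rp Q t) {k | k ∈ keys t}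
  | nil, _ => by intro a ha; simp [keys] at ha
  | node a l r, hb => by
    obtain ⟨b1, b2, b3, b4⟩ := bst_lt hb
    intro k hk k' hk' hkk'
    by_cases ha : a ∈ Q
    · obtain ⟨s1, s2, s3⟩ := rp_side Q hb ha
      have hl := rp_mon Q l b3
      have hr := rp_mon Q r b4
      simp only [Set.mem_setOf_eq, keys, List.mem_append, List.mem_cons] at hk hk'
      rcases hk with hk | rfl | hk
      · obtain ⟨e1, e2⟩ := s1 k hk
        rcases hk' with hk' | rfl | hk'
        · rw [e1, (s1 k' hk').1]; exact hl k hk k' hk' hkk'
        · rw [e1, s2]; exact e2.le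
        · obtain ⟨e3, e4⟩ := s3 k' hk'; rw [e1, e3]; omega
      · rcases hk' with hk' | rfl | hk'
        · have := b1 k' hk'; omega
        · omega
        · obtain ⟨e3, e4⟩ := s3 k' hk'; rw [s2, e3]; omega
      · rcases hk' with hk' | rfl | hk'
        · have := b1 k' hk'; have := b2 k hk; omega
        · have := b2 k hk; omega
        · rw [(s3 k hk).1, (s3 k' hk').1]; exact hr k hk k' hk' hkk'
    · simp [rp, ha]

theorem cutR_all (φ : ℕ → ℕ) (c : ℕ) : ∀ t : Tr, (∀ k ∈ keys t, φ k < c) → cutR φ c t = t
  | nil, _ => rfl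
  | node a l r, h => by
    have h1 := cutR_all φ c r (fun k hk => h k (by simp [keys, hk]))
    simp [cutR, h a (by simp [keys]), h1]

theorem cutL_all (φ : ℕ → ℕ) (c : ℕ) : ∀ t : Tr, (∀ k ∈ keys t, c < φ k) → cutL φ c t = t
  | nil, _ => rfl
  | node a l r, h => by
    have h1 := cutL_all φ c l (fun k hk => h k (by simp [keys, hk]))
    simp [cutL, h a (by simp [keys]), h1]

theorem cutR_none (φ : ℕ → ℕ) (c : ℕ) : ∀ t : Tr, (∀ k ∈ keys t, ¬ φ k < c) → cutR φ c t = nil
  | nil, _ => rfl
  | node a l r, h => by
    have h1 := cutR_none φ c l (fun k hk => h k (by simp [keys, hk]))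
    simp only [cutR, h a (by simp [keys]), if_false, h1]

theorem cutL_none (φ : ℕ → ℕ) (c : ℕ) : ∀ t : Tr, (∀ k ∈ keys t, ¬ c < φ k) → cutL φ c t = nil
  | nil, _ => rfl
  | node a l r, h => by
    have h1 := cutL_none φ c r (fun k hk => h k (by simp [keys, hk]))
    simp only [cutL, h a (by simp [keys]), if_false, h1]

theorem cutR_congr {φ ψ : ℕ → ℕ} (c : ℕ) : ∀ t : Tr, (∀ k ∈ keys t, φ k = ψ k) →
    cutR φ c t = cutR ψ c t
  | nil, _ => rfl
  | node a l r, h => by
    have h1 := cutR_congr c l (fun k hk => h k (by simp [keys, hk]))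
    have h2 := cutR_congr c r (fun k hk => h k (by simp [keys, hk]))
    simp only [cutR, h1, h2, h a (by simp [keys])]

theorem cutL_congr {φ ψ : ℕ → ℕ} (c : ℕ) : ∀ t : Tr, (∀ k ∈ keys t, φ k = ψ k) →
    cutL φ c t = cutL ψ c t
  | nil, _ => rfl
  | node a l r, h => by
    have h1 := cutL_congr c l (fun k hk => h k (by simp [keys, hk]))
    have h2 := cutL_congr c r (fun k hk => h k (by simp [keys, hk]))
    simp only [cutL, h1, h2, h a (by simp [keys])]

theorem con_congr {φ ψ : ℕ → ℕ} : ∀ (n : ℕ) (t : Tr), size t ≤ n → (∀ k ∈ keys t, φ k = ψ k) →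
    con φ t = con ψ t := by
  intro n
  induction n with
  | zero =>
    intro t hn _
    cases t with
    | nil => rw [con_nil, con_nil]
    | node a l r => simp [size] at hn
  | succ n ih =>
    intro t hn h
    cases t with
    | nil => rw [con_nil, con_nil]
    | node a l r =>
      have ha := h a (by simp [keys])
      have hl : ∀ k ∈ keys l, φ k = ψ k := fun k hk => h k (by simp [keys, hk])
      have hr : ∀ k ∈ keys r, φ k = ψ k := fun k hk => h k (by simp [keys, hk])
      simp only [size] at hn
      rw [con_node, con_node, ha, cutR_congr (ψ a) l hl, cutL_congr (ψ a) r hr]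
      have h1 := size_cutR ψ (ψ a) l
      have h2 := size_cutL ψ (ψ a) r
      rw [ih _ (by omega) (fun k hk => hl k ((cutR_sub ψ (ψ a) l).subset hk)),
        ih _ (by omega) (fun k hk => hr k ((cutL_sub ψ (ψ a) r).subset hk))]

theorem con_rp (Q : Finset ℕ) : ∀ t : Tr, IsBST t → con (rp Q t) t = trunc Q t
  | nil, _ => by rw [con_nil]; rfl
  | node a l r, hb => by
    obtain ⟨b1, b2, b3, b4⟩ := bst_lt hb
    have hl := con_rp Q l b3
    have hr := con_rp Q r b4
    rw [con_node]
    by_cases ha : a ∈ Q
    · obtain ⟨s1, s2, s3⟩ := rp_side Q hb ha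
      rw [s2, cutR_all _ _ l (fun k hk => by rw [(s1 k hk).1]; exact (s1 k hk).2),
        cutL_all _ _ r (fun k hk => by rw [(s3 k hk).1]; exact (s3 k hk).2),
        con_congr (size l) l le_rfl (fun k hk => (s1 k hk).1),
        con_congr (size r) r le_rfl (fun k hk => (s3 k hk).1), hl, hr]
      simp [trunc, ha]
    · have e : ∀ k, rp Q (node a l r) k = a := fun k => by simp [rp, ha]
      rw [e a, cutR_none _ _ l (fun k _ => by rw [e k]; omega),
        cutL_none _ _ r (fun k _ => by rw [e k]; omega), con_nil]
      simp [trunc, ha]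

theorem rp_fix (Q : Finset ℕ) (x : ℕ) : ∀ t : Tr, IsBST t → x ∈ keys t → pathk x t ⊆ Q →
    rp Q t x = x ∧ ∀ k ∈ keys t, rp Q t k = x → k = x
  | nil, _, hx, _ => by simp [keys] at hx
  | node a l r, hb, hx, hp => by
    obtain ⟨b1, b2, b3, b4⟩ := bst_lt hb
    have ha : a ∈ Q := hp (by simp [pathk])
    obtain ⟨s1, s2, s3⟩ := rp_side Q hb ha
    rcases Nat.lt_trichotomy x a with h | h | h
    · have hxl : x ∈ keys l := by
        simp only [keys, List.mem_append, List.mem_cons] at hx
        rcases hx with h' | h' | h'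
        · exact h'
        · omega
        · have := b2 x h'; omega
      obtain ⟨i1, i2⟩ := rp_fix Q x l b3 hxl (by
        intro k hk
        apply hp
        simp only [pathk, if_neg h.ne, if_pos h]
        exact Finset.mem_insert_of_mem hk)
      refine ⟨by rw [(s1 x hxl).1, i1], fun k hk hkx => ?_⟩
      simp only [keys, List.mem_append, List.mem_cons] at hk
      rcases hk with hk | rfl | hk
      · rw [(s1 k hk).1] at hkx; exact i2 k hk hkx
      · omega
      · have := s3 k hk; omega
    · subst h
      refine ⟨s2, fun k hk hkx => ?_⟩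
      simp only [keys, List.mem_append, List.mem_cons] at hk
      rcases hk with hk | rfl | hk
      · have := s1 k hk; omega
      · rfl
      · have := s3 k hk; omega
    · have hxr : x ∈ keys r := by
        simp only [keys, List.mem_append, List.mem_cons] at hx
        rcases hx with h' | h' | h'
        · have := b1 x h'; omega
        · omega
        · exact h'
      obtain ⟨i1, i2⟩ := rp_fix Q x r b4 hxr (by
        intro k hk
        apply hp
        simp only [pathk, if_neg h.ne', if_neg h.not_gt]
        exact Finset.mem_insert_of_mem hk)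
      refine ⟨by rw [(s3 x hxr).1, i1], fun k hk hkx => ?_⟩
      simp only [keys, List.mem_append, List.mem_cons] at hk
      rcases hk with hk | rfl | hk
      · have := s1 k hk; omega
      · omega
      · rw [(s3 k hk).1] at hkx; exact i2 k hk hkx

theorem pr_trunc (Q : Finset ℕ) : ∀ t : Tr, pr Q (trunc Q t) = pr Q t
  | nil => rfl
  | node a l r => by
    by_cases ha : a ∈ Q
    · simp [trunc, pr, ha, pr_trunc Q l, pr_trunc Q r]
    · simp [trunc, pr, ha]

theorem trunc_sub (Q : Finset ℕ) : ∀ t : Tr, (keys (trunc Q t)).Sublist (keys t)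
  | nil => List.Sublist.refl _
  | node a l r => by
    simp only [trunc]
    split_ifs
    · simp only [keys]
      exact (trunc_sub Q l).append ((trunc_sub Q r).cons_cons a)
    · simp only [keys, List.nil_append]
      exact (List.Sublist.cons_cons a (List.nil_sublist (keys r))).trans
        (List.sublist_append_right _ _)

theorem size_trunc (Q : Finset ℕ) : ∀ t : Tr, size (trunc Q t) ≤ 2 * size (pr Q t) + 1
  | nil => by simp [trunc, size]
  | node a l r => by
    have h1 := size_trunc Q l
    have h2 := size_trunc Q r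
    by_cases ha : a ∈ Q
    · simp only [trunc, pr, ha, if_true, size]; omega
    · simp [trunc, pr, ha, size]

theorem size_pr (Q : Finset ℕ) {t : Tr} (hb : IsBST t) : size (pr Q t) ≤ Q.card := by
  rw [← size_keys]
  have h1 : (keys (pr Q t)).Nodup := by
    have : (keys (pr Q t)).Pairwise (· < ·) := List.Pairwise.sublist (pr_keys Q t) hb
    exact this.imp (fun h => h.ne)
  rw [← List.toFinset_card_of_nodup h1]
  exact Finset.card_le_card (fun k hk => pr_mem Q t k (List.mem_toFinset.1 hk))

theorem path_pr (Q : Finset ℕ) (x : ℕ) : ∀ t : Tr, IsBST t → x ∈ keys (pr Q t) → pathk x t ⊆ Q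
  | nil, _, _ => by simp [pathk]
  | node a l r, hb, hx => by
    obtain ⟨b1, b2, b3, b4⟩ := bst_lt hb
    by_cases ha : a ∈ Q
    · simp only [pr, ha, if_true, keys, List.mem_append, List.mem_cons] at hx
      intro k hk
      simp only [pathk, Finset.mem_insert] at hk
      rcases hk with rfl | hk
      · exact ha
      · split_ifs at hk with h1 h2
        · simp at hk
        · have hxl : x ∈ keys (pr Q l) := by
            rcases hx with h | h | h
            · exact h
            · exact absurd h h1
            · have := b2 x ((pr_keys Q r).subset h); omega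
          exact path_pr Q x l b3 hxl hk
        · have hxr : x ∈ keys (pr Q r) := by
            rcases hx with h | h | h
            · have := b1 x ((pr_keys Q l).subset h); omega
            · exact absurd h h1
            · exact h
          exact path_pr Q x r b4 hxr hk
    · simp [pr, ha, keys] at hx

theorem tch_sub (Q : Finset ℕ) (X : List ℕ) : ∀ T : Tr, IsBST T → (∀ x ∈ X, x ∈ keys (pr Q T)) →
    tch T X ⊆ Q := by
  induction X with
  | nil => intro T _ _; simp [tch]
  | cons x X ih =>
    intro T hb hX
    have hx := hX x (by simp)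
    have hp := path_pr Q x T hb hx
    have hxT := (pr_keys Q T).subset hx
    have hbp : IsBST (pr Q T) := List.Pairwise.sublist (pr_keys Q T) hb
    simp only [tch]
    refine Finset.union_subset hp (ih _ (bst_eq (splay_keys hb hxT) hb) fun y hy => ?_)
    rw [← splay_pr Q x T hb hxT hp, splay_keys hbp hx]
    exact hX y (by simp [hy])

/-- the cost of splaying depends only on the touched part -/
theorem pr_cost (Q : Finset ℕ) (X : List ℕ) : ∀ T T' : Tr, IsBST T → IsBST T' →
    pr Q T = pr Q T' → (∀ x ∈ X, x ∈ keys (pr Q T)) → costSplay T' X = costSplay T X := by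
  intro T T' hb hb' he hX
  have h1 := tch_sub Q X T hb hX
  have h2 := tch_sub Q X T' hb' (by rw [← he]; exact hX)
  have h3 := (costSplay_pr X T Q hb (fun x hx => (pr_keys Q T).subset (hX x hx)) h1).1
  have h4 := (costSplay_pr X T' Q hb' (fun x hx => (pr_keys Q T').subset (by
    rw [← he]; exact hX x hx)) h2).1
  rw [← h3, ← h4, he]

/-! ### the touched part is small -/

theorem path_right {a b : ℕ} (hab : b < a) (A B C : Tr) (x : ℕ) :
    pathk x (node a (node b A B) C) ⊆ pathk x (node b A (node a B C)) ∪ {a, b} ∧
    pathk x (node b A (node a B C)) ⊆ pathk x (node a (node b A B) C) ∪ {a, b} := by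
  rcases Nat.lt_trichotomy x b with h | h | h
  · have h' : x < a := h.trans hab
    have e1 : pathk x (node a (node b A B) C) = insert a (insert b (pathk x A)) := by
      simp [pathk, h, h', h.ne, h'.ne]
    have e2 : pathk x (node b A (node a B C)) = insert b (pathk x A) := by
      simp [pathk, h, h.ne]
    rw [e1, e2]
    constructor <;> intro k hk <;> simp only [Finset.mem_union, Finset.mem_insert,
      Finset.mem_singleton] at hk ⊢ <;> tauto
  · subst h
    have e1 : pathk x (node a (node x A B) C) = insert a {x} := by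
      simp [pathk, hab, hab.ne]
    have e2 : pathk x (node x A (node a B C)) = {x} := by
      simp [pathk]
    rw [e1, e2]
    constructor <;> intro k hk <;> simp only [Finset.mem_union, Finset.mem_insert,
      Finset.mem_singleton] at hk ⊢ <;> tauto
  · rcases Nat.lt_trichotomy x a with h' | h' | h'
    · have e1 : pathk x (node a (node b A B) C) = insert a (insert b (pathk x B)) := by
        simp [pathk, h', h'.ne, h.ne', h.not_gt]
      have e2 : pathk x (node b A (node a B C)) = insert b (insert a (pathk x B)) := by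
        simp [pathk, h', h'.ne, h.ne', h.not_gt]
      rw [e1, e2]
      constructor <;> intro k hk <;> simp only [Finset.mem_union, Finset.mem_insert,
        Finset.mem_singleton] at hk ⊢ <;> tauto
    · subst h'
      have e1 : pathk x (node x (node b A B) C) = {x} := by simp [pathk]
      have e2 : pathk x (node b A (node x B C)) = insert b {x} := by
        simp [pathk, h.ne', h.not_gt]
      rw [e1, e2]
      constructor <;> intro k hk <;> simp only [Finset.mem_union, Finset.mem_insert,
        Finset.mem_singleton] at hk ⊢ <;> tauto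
    · have e1 : pathk x (node a (node b A B) C) = insert a (pathk x C) := by
        simp [pathk, h'.ne', h'.not_gt]
      have e2 : pathk x (node b A (node a B C)) = insert b (insert a (pathk x C)) := by
        simp [pathk, h'.ne', h'.not_gt, h.ne', h.not_gt]
      rw [e1, e2]
      constructor <;> intro k hk <;> simp only [Finset.mem_union, Finset.mem_insert,
        Finset.mem_singleton] at hk ⊢ <;> tauto

theorem path_rot {s : ℕ} {T T' : Tr} (h : Rot T T' s) : IsBST T → ∃ P : Finset ℕ, P.card ≤ 2 ∧
    ∀ x, pathk x T ⊆ pathk x T' ∪ P := by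
  induction h with
  | right a b A B C =>
    intro hb
    exact ⟨{a, b}, Finset.card_le_two, fun x =>
      (path_right ((bst_lt hb).1 b (by simp [keys])) A B C x).1⟩
  | left a b A B C =>
    intro hb
    exact ⟨{a, b}, Finset.card_le_two, fun x =>
      (path_right ((bst_lt hb).2.1 a (by simp [keys])) A B C x).2⟩
  | inl a L L' R s _ ih =>
    intro hb
    obtain ⟨P, hP, h⟩ := ih (bst_lt hb).2.2.1
    refine ⟨P, hP, fun x => ?_⟩
    intro k hk
    have h0 : k ∈ pathk x L → k ∈ pathk x L' ∪ P := fun h1 => h x h1
    simp only [pathk, Finset.mem_union, Finset.mem_insert] at hk ⊢ h0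
    split_ifs at hk ⊢ <;> tauto
  | inr a L R R' s _ ih =>
    intro hb
    obtain ⟨P, hP, h⟩ := ih (bst_lt hb).2.2.2
    refine ⟨P, hP, fun x => ?_⟩
    intro k hk
    have h0 : k ∈ pathk x R → k ∈ pathk x R' ∪ P := fun h1 => h x h1
    simp only [pathk, Finset.mem_union, Finset.mem_insert] at hk ⊢ h0
    split_ifs at hk ⊢ <;> tauto

theorem path_rotN {e : ℕ} {T T' : Tr} (h : RotN e T T') : IsBST T → ∃ P : Finset ℕ,
    P.card ≤ 2 * e ∧ ∀ x, pathk x T ⊆ pathk x T' ∪ P := by
  induction h with
  | refl T => intro _; exact ⟨∅, by simp, fun x => by simp⟩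
  | step e s T T1 T2 h1 _ ih =>
    intro hb
    obtain ⟨P, hP, h2⟩ := path_rot h1 hb
    obtain ⟨P', hP', h2'⟩ := ih (bst_eq (rot_keys h1) hb)
    refine ⟨P ∪ P', ?_, fun x k hk => ?_⟩
    · have := Finset.card_union_le P P'
      omega
    · have a1 := h2 x hk
      simp only [Finset.mem_union] at a1 ⊢
      rcases a1 with a1 | a1
      · have a2 := h2' x a1
        simp only [Finset.mem_union] at a2
        tauto
      · tauto

/-- the union of the search paths -/
def U (T : Tr) (X : List ℕ) : Finset ℕ := X.toFinset.biUnion fun x => pathk x T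

theorem U_card {T : Tr} {X : List ℕ} {d : ℕ} (h : Exec T X d) : IsBST T →
    (U T X).card ≤ 2 * d := by
  induction h with
  | nil T => intro _; simp [U]
  | cons T T' x Y e c h1 _ ih =>
    intro hb
    obtain ⟨P, hP, h2⟩ := path_rotN h1 hb
    have h3 := ih (bst_eq (rotN_keys h1) hb)
    have h4 : U T (x :: Y) ⊆ pathk x T ∪ (U T' Y ∪ P) := by
      intro k hk
      simp only [U, Finset.mem_biUnion, List.mem_toFinset, List.mem_cons] at hk
      obtain ⟨y, hy, hk⟩ := hk
      simp only [Finset.mem_union]
      rcases hy with rfl | hy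
      · exact Or.inl hk
      · have := h2 y hk
        simp only [Finset.mem_union] at this
        rcases this with h | h
        · right; left
          simp only [U, Finset.mem_biUnion, List.mem_toFinset]
          exact ⟨y, hy, h⟩
        · exact Or.inr (Or.inr h)
    have h5 := Finset.card_le_card h4
    have h6 := Finset.card_union_le (pathk x T) (U T' Y ∪ P)
    have h7 := Finset.card_union_le (U T' Y) P
    have h8 := pathk_card x T
    omega

/-- **Reduction to small trees.** -/
theorem small {T : Tr} (hb : IsBST T) {X : List ℕ} (hX : ∀ x ∈ X, x ∈ keys T) {d : ℕ}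
    (hd : Exec T X d) : ∃ T' : Tr, IsBST T' ∧ (∀ x ∈ X, x ∈ keys T') ∧
      costSplay T' X = costSplay T X ∧ size T' ≤ 4 * d + 1 ∧ ∃ d' ≤ d, Exec T' X d' := by
  obtain ⟨Q, hQ⟩ : ∃ Q, Q = U T X := ⟨_, rfl⟩
  have hp : ∀ x ∈ X, pathk x T ⊆ Q := by
    intro x hx k hk
    rw [hQ]
    simp only [U, Finset.mem_biUnion, List.mem_toFinset]
    exact ⟨x, hx, hk⟩
  have hXp : ∀ x ∈ X, x ∈ keys (pr Q T) := fun x hx => mem_pr Q x T hb (hX x hx) (hp x hx)
  have hb' : IsBST (trunc Q T) := List.Pairwise.sublist (trunc_sub Q T) hb
  refine ⟨trunc Q T, hb', ?_, ?_, ?_, ?_⟩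
  · intro x hx
    have := hXp x hx
    rw [← pr_trunc] at this
    exact (pr_keys Q _).subset this
  · exact pr_cost Q X T (trunc Q T) hb hb' (pr_trunc Q T).symm hXp
  · have h1 := size_trunc Q T
    have h2 := size_pr Q hb
    have h3 := U_card hd hb
    rw [← hQ] at h3
    omega
  · rw [← con_rp Q T hb]
    exact con_exec (rp Q T) {k | k ∈ keys T} (rp_mon Q T hb) hd hb (fun k hk => hk)
      (fun x hx => ⟨hX x hx, rp_fix Q x T hb (hX x hx) (hp x hx)⟩)

end Pool.Agent.Q208.SP
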