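import Pool.Agent.Q208.SP.Mv

set_option autoImplicit false
set_option linter.unusedSimpArgs false

/-! Splaying can turn every search tree with at least four keys into every other one, at linear
cost. -/

namespace Pool.Agent.Q208.SP

open Pool.Agent.H581R2.Splay Pool.Agent.TH49.Spl Tr

/-- some requests turn the splay tree `t` into `t'` and cost at most `c` -/
def Rc (c : ℕ) (t t' : Tr) : Prop :=
  ∃ W : List ℕ, (∀ x ∈ W, x ∈ keys t) ∧ runS t W = t' ∧ costSplay t W ≤ c

theorem Rc.refl (t : Tr) : Rc 0 t t := ⟨[], by simp, rfl, by simp [costSplay]⟩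

theorem Rc.trans {c c' : ℕ} {t t' t'' : Tr} (hb : IsBST t) (h : Rc c t t') (h' : Rc c' t' t'') :
    Rc (c + c') t t'' := by
  obtain ⟨W, h1, h2, h3⟩ := h
  obtain ⟨W', h1', h2', h3'⟩ := h'
  have hk := runS_keys W t hb h1
  rw [h2] at hk
  refine ⟨W ++ W', ?_, ?_, ?_⟩
  · intro x hx
    rw [List.mem_append] at hx
    rcases hx with hx | hx
    · exact h1 x hx
    · rw [← hk]; exact h1' x hx
  · rw [runS_append, h2, h2']
  · rw [costSplay_append, h2]; omega

theorem Rc.mono {c c' : ℕ} {t t' : Tr} (h : Rc c t t') (hc : c ≤ c') : Rc c' t t' := by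
  obtain ⟨W, h1, h2, h3⟩ := h
  exact ⟨W, h1, h2, h3.trans hc⟩

/-- order of the keys -/
theorem bst_lt {a : ℕ} {l r : Tr} (h : IsBST (node a l r)) :
    (∀ k ∈ keys l, k < a) ∧ (∀ k ∈ keys r, a < k) ∧ IsBST l ∧ IsBST r := by
  simp only [IsBST, keys] at h ⊢
  rw [List.pairwise_append, List.pairwise_cons] at h
  obtain ⟨hl, ⟨har, hr⟩, hlr⟩ := h
  exact ⟨fun k hk => hlr k hk a (by simp), har, hl, hr⟩

theorem w_r0 {a b : ℕ} (h : a < b) (A B C : Tr) :
    Rc 2 (node b (node a A B) C) (node a A (node b B C)) := by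
  refine ⟨[a], by simp [keys], ?_, ?_⟩
  · simp [runS, splay, locate, climb, h, h.ne]
  · simp [costSplay, dep, h, h.ne]

theorem w_i0 {a b : ℕ} (h : a < b) (A B C : Tr) :
    Rc 2 (node a A (node b B C)) (node b (node a A B) C) := by
  refine ⟨[b], by simp [keys], ?_, ?_⟩
  · simp [runS, splay, locate, climb, h.ne', h.not_gt]
  · simp [costSplay, dep, h.ne', h.not_gt]

theorem w_r1 {a b c : ℕ} (h : a < b) (h' : b < c) (A B C D : Tr) :
    Rc 5 (node a A (node c (node b B C) D)) (node a A (node b B (node c C D))) := by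
  refine ⟨[b, a], by simp [keys], ?_, ?_⟩
  · simp [runS, splay, locate, climb, h, h', h.ne, h.ne', h'.ne, h'.ne', h.not_gt, h'.not_gt]
  · simp [costSplay, splay, locate, climb, dep, h, h', h.ne, h.ne', h'.ne, h'.ne', h.not_gt,
      h'.not_gt]

theorem w_A {d a b c : ℕ} (h0 : d < a) (h : a < b) (h' : b < c) (A1 A2 B C D : Tr) :
    Rc 16 (node a (node d A1 A2) (node b B (node c C D)))
      (node a (node d A1 A2) (node c (node b B C) D)) := by
  have e1 : d < b := h0.trans h
  have e2 : d < c := e1.trans h'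
  have e3 : a < c := h.trans h'
  refine ⟨[d, c, a], by simp [keys], ?_, ?_⟩
  · simp [runS, splay, locate, climb, h, h', h.ne, h.ne', h'.ne, h'.ne', h.not_gt, h'.not_gt,
      h0, h0.ne, h0.ne', h0.not_gt, e1, e1.ne, e1.ne', e1.not_gt, e2, e2.ne, e2.ne', e2.not_gt,
      e3, e3.ne, e3.ne', e3.not_gt]
  · simp [costSplay, splay, locate, climb, dep, h, h', h.ne, h.ne', h'.ne, h'.ne', h.not_gt,
      h'.not_gt, h0, h0.ne, h0.ne', h0.not_gt, e1, e1.ne, e1.ne', e1.not_gt, e2, e2.ne, e2.ne',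
      e2.not_gt, e3, e3.ne, e3.ne', e3.not_gt]

theorem w_D {a b c d : ℕ} (h : a < b) (h' : b < c) (h0 : c < d) (A B C D1 D2 : Tr) :
    Rc 16 (node a A (node b B (node c C (node d D1 D2))))
      (node a A (node c (node b B C) (node d D1 D2))) := by
  have e1 : b < d := h'.trans h0
  have e2 : a < d := h.trans e1
  have e3 : a < c := h.trans h'
  refine ⟨[d, c, a], by simp [keys], ?_, ?_⟩
  · simp [runS, splay, locate, climb, h, h', h.ne, h.ne', h'.ne, h'.ne', h.not_gt, h'.not_gt,
      h0, h0.ne, h0.ne', h0.not_gt, e1, e1.ne, e1.ne', e1.not_gt, e2, e2.ne, e2.ne', e2.not_gt,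
      e3, e3.ne, e3.ne', e3.not_gt]
  · simp [costSplay, splay, locate, climb, dep, h, h', h.ne, h.ne', h'.ne, h'.ne', h.not_gt,
      h'.not_gt, h0, h0.ne, h0.ne', h0.not_gt, e1, e1.ne, e1.ne', e1.not_gt, e2, e2.ne, e2.ne',
      e2.not_gt, e3, e3.ne, e3.ne', e3.not_gt]

theorem w_B {a d b c : ℕ} (h : a < d) (h0 : d < b) (h' : b < c) (A B1 B2 C D : Tr) :
    Rc 16 (node a A (node b (node d B1 B2) (node c C D)))
      (node a A (node c (node b (node d B1 B2) C) D)) := by
  have e1 : a < b := h.trans h0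
  have e2 : a < c := e1.trans h'
  have e3 : d < c := h0.trans h'
  refine ⟨[d, a, c, a], by simp [keys], ?_, ?_⟩
  · simp [runS, splay, locate, climb, h, h', h.ne, h.ne', h'.ne, h'.ne', h.not_gt, h'.not_gt,
      h0, h0.ne, h0.ne', h0.not_gt, e1, e1.ne, e1.ne', e1.not_gt, e2, e2.ne, e2.ne', e2.not_gt,
      e3, e3.ne, e3.ne', e3.not_gt]
  · simp [costSplay, splay, locate, climb, dep, h, h', h.ne, h.ne', h'.ne, h'.ne', h.not_gt,
      h'.not_gt, h0, h0.ne, h0.ne', h0.not_gt, e1, e1.ne, e1.ne', e1.not_gt, e2, e2.ne, e2.ne',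
      e2.not_gt, e3, e3.ne, e3.ne', e3.not_gt]

theorem w_C {a b d c : ℕ} (h : a < b) (h0 : b < d) (h' : d < c) (A B C1 C2 D : Tr) :
    Rc 16 (node a A (node b B (node c (node d C1 C2) D)))
      (node a A (node c (node b B (node d C1 C2)) D)) := by
  have e1 : a < d := h.trans h0
  have e2 : a < c := e1.trans h'
  have e3 : b < c := h0.trans h'
  refine ⟨[b, d, c, a], by simp [keys], ?_, ?_⟩
  · simp [runS, splay, locate, climb, h, h', h.ne, h.ne', h'.ne, h'.ne', h.not_gt, h'.not_gt,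
      h0, h0.ne, h0.ne', h0.not_gt, e1, e1.ne, e1.ne', e1.not_gt, e2, e2.ne, e2.ne', e2.not_gt,
      e3, e3.ne, e3.ne', e3.not_gt]
  · simp [costSplay, splay, locate, climb, dep, h, h', h.ne, h.ne', h'.ne, h'.ne', h.not_gt,
      h'.not_gt, h0, h0.ne, h0.ne', h0.not_gt, e1, e1.ne, e1.ne', e1.not_gt, e2, e2.ne, e2.ne',
      e2.not_gt, e3, e3.ne, e3.ne', e3.not_gt]

/-- the rotation at the right child of the root, backwards -/
theorem w_i1 {a b c : ℕ} (A B C D : Tr)
    (hb : IsBST (node a A (node b B (node c C D))))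
    (h4 : 4 ≤ size (node a A (node b B (node c C D)))) :
    Rc 16 (node a A (node b B (node c C D))) (node a A (node c (node b B C) D)) := by
  obtain ⟨hA, hR, -, hbR⟩ := bst_lt hb
  obtain ⟨hB, hR', -, hbR'⟩ := bst_lt hbR
  obtain ⟨hC, hD, -, -⟩ := bst_lt hbR'
  have hab : a < b := hR b (by simp [keys])
  have hbc : b < c := hR' c (by simp [keys])
  cases A with
  | node d A1 A2 => exact w_A (hA d (by simp [keys])) hab hbc A1 A2 B C D
  | nil =>
    cases B with
    | node d B1 B2 =>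
      exact w_B (hR d (by simp [keys])) (hB d (by simp [keys])) hbc nil B1 B2 C D
    | nil =>
      cases C with
      | node d C1 C2 =>
        exact w_C hab (hR' d (by simp [keys])) (hC d (by simp [keys])) nil nil C1 C2 D
      | nil =>
        cases D with
        | node d D1 D2 => exact w_D hab hbc (hD d (by simp [keys])) nil nil nil D1 D2
        | nil => simp [size] at h4

theorem size_eq' {t t' : Tr} (h : keys t' = keys t) : size t' = size t := by
  rw [← size_keys, ← size_keys, h]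

theorem bst_eq {t t' : Tr} (h : keys t' = keys t) (hb : IsBST t) : IsBST t' := by
  unfold IsBST; rw [h]; exact hb

theorem mv_rc {t t' : Tr} (h : Mv t t') (hb : IsBST t) (h4 : 4 ≤ size t) :
    Rc 16 t t' ∧ Rc 16 t' t := by
  have hk := h.keys_eq
  have hb' := bst_eq hk hb
  have h4' : 4 ≤ size t' := by rw [size_eq' hk]; exact h4
  cases h with
  | r0 a b A B C =>
    have hab : a < b := (bst_lt hb).1 a (by simp [keys])
    exact ⟨(w_r0 hab A B C).mono (by omega), (w_i0 hab A B C).mono (by omega)⟩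
  | i0 a b A B C =>
    have hab : a < b := (bst_lt hb).2.1 b (by simp [keys])
    exact ⟨(w_i0 hab A B C).mono (by omega), (w_r0 hab A B C).mono (by omega)⟩
  | r1 a b c A B C D =>
    have hab : a < b := (bst_lt hb').2.1 b (by simp [keys])
    have hbc : b < c := (bst_lt (bst_lt hb').2.2.2).2.1 c (by simp [keys])
    exact ⟨(w_r1 hab hbc A B C D).mono (by omega), w_i1 A B C D hb' h4'⟩

theorem mvn_rc {k : ℕ} {t t' : Tr} (h : MvN k t t') : IsBST t → 4 ≤ size t →
    Rc (16 * k) t t' ∧ Rc (16 * k) t' t := by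
  induction h with
  | refl t => intro _ _; exact ⟨by simpa using Rc.refl t, by simpa using Rc.refl t⟩
  | step k t t1 t2 h1 h2 ih =>
    intro hb h4
    have hk := h1.keys_eq
    obtain ⟨a1, a2⟩ := mv_rc h1 hb h4
    have hb1 := bst_eq hk hb
    obtain ⟨b1, b2⟩ := ih hb1 (by rw [size_eq' hk]; exact h4)
    have hb2 := bst_eq h2.keys_eq hb1
    exact ⟨(a1.trans hb b1).mono (by omega), (b2.trans hb2 a2).mono (by omega)⟩

/-- **Every splay tree with at least four keys can be turned into every other one.** -/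
theorem connect {t t' : Tr} (hb : IsBST t) (hk : keys t' = keys t) (h4 : 4 ≤ size t) :
    Rc (96 * size t) t t' := by
  obtain ⟨k, hk1, h1⟩ := canon t
  obtain ⟨k', hk1', h1'⟩ := canon t'
  have hs := size_eq' hk
  have hb' := bst_eq hk hb
  rw [hk] at h1'
  have a := (mvn_rc h1 hb h4).1
  have b := (mvn_rc h1' hb' (by rw [hs]; exact h4)).2
  exact (a.trans hb b).mono (by rw [hs] at hk1'; omega)

end Pool.Agent.Q208.SP
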